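import Mathlib
import Pool.Agent.L0h79.FR.LZ

set_option autoImplicit false
set_option linter.all false

/-!
# Project FR, part 2: common lemmas for the modules LS and LC
-/

namespace Pool.Agent.L0h9.FR

open Filter Topology Pool.Agent.TH932.Abs Pool.Agent.TH932.Germs Pool.Agent.TH932.Chi
open Pool.Agent.TH796.AL Pool.Agent.TH932.Words Pool.Agent.TH796.AL.TwoB
open Pool.Agent.L0h79.FR

section ring

variable {m : ℕ} (B : Base m) {L : ℕ → ℝ} (hL : Tendsto L atTop atTop)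
  (V : Submodule ℝ (Fin m → ℝ))

/-- the values of the elements with support in `V` -/
noncomputable def EE : Subring GG where
  carrier := {z | ∃ f : Rg m hL, (∀ g, f.coeff g ≠ 0 → g ∈ V) ∧ z = ev B hL f}
  mul_mem' := by
    rintro _ _ ⟨f, hf, rfl⟩ ⟨g, hg, rfl⟩
    refine ⟨f * g, fun x hx => ?_, by rw [map_mul]⟩
    obtain ⟨a, b, ha, hb, rfl⟩ := Dir.supp_mul hL hx
    exact V.add_mem (hf a ha) (hg b hb)
  one_mem' := by
    refine ⟨1, fun x hx => ?_, by rw [map_one]⟩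
    rw [AddMonoidAlgebra.one_def, AddMonoidAlgebra.coeff_single] at hx
    by_cases h : x = 0
    · rw [h]; exact V.zero_mem
    · exact absurd (Finsupp.single_eq_of_ne h) hx
  add_mem' := by
    rintro _ _ ⟨f, hf, rfl⟩ ⟨g, hg, rfl⟩
    refine ⟨f + g, fun x hx => ?_, by rw [map_add]⟩
    rw [AddMonoidAlgebra.coeff_add, Finsupp.add_apply] at hx
    by_cases h : f.coeff x = 0
    · rw [h, zero_add] at hx
      exact hg x hx
    · exact hf x h
  zero_mem' := ⟨0, fun x hx => by simp at hx, by rw [map_zero]⟩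
  neg_mem' := by
    rintro _ ⟨f, hf, rfl⟩
    refine ⟨-f, fun x hx => hf x fun h => hx ?_, by rw [map_neg]⟩
    rw [AddMonoidAlgebra.coeff_neg, Finsupp.neg_apply, h, neg_zero]

variable {B} {hL} {V}

lemma EE_iff {z : GG} : z ∈ EE B hL V ↔
    ∃ f : Rg m hL, (∀ g, f.coeff g ≠ 0 → g ∈ V) ∧ z = ev B hL f := Iff.rfl

lemma EE_ch (κ : KK L hL) {g : Fin m → ℝ} (hg : g ∈ V) :
    (κ : GG) * Pool.Agent.TH796.AL.ch B hL g ∈ EE B hL V := by
  refine ⟨AddMonoidAlgebra.single g κ, fun x hx => ?_, (ev_single hL g κ).symm⟩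
  rw [AddMonoidAlgebra.coeff_single] at hx
  by_cases h : x = g
  · rw [h]; exact hg
  · exact absurd (Finsupp.single_eq_of_ne h) hx

lemma EE_KK {z : GG} (hz : z ∈ KK L hL) : z ∈ EE B hL V := by
  have h := EE_ch (B := B) (V := V) (⟨z, hz⟩ : KK L hL) V.zero_mem
  rwa [ch_zero, mul_one] at h

end ring

/-- powers of the base -/
lemma EE_shift (hS : S_SHIFT) {b : ℕ} (hb : 2 ≤ b) {m : ℕ} (B : Base m) {e : Fin m → ℕ}
    (hbe : b = ∏ i, B.P i ^ e i) {N : ℕ → ℕ}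
    (hL : Tendsto (fun n => (N n : ℝ)) atTop atTop)
    (S : ℕ → ℕ) (M : ℕ) (h : ∀ᶠ n in (UU : Filter ℕ), S n ≤ M * N n) :
    gm (fun n => ((b : ℚ) ^ S n)⁻¹)
      ∈ EE B hL (Submodule.span ℝ {fun i => (e i : ℝ)}) := by
  obtain ⟨κ, t, h1⟩ := hS b hb m B e hbe N hL S M h
  rw [h1]
  refine EE_ch κ ?_
  refine Submodule.mem_span_singleton.2 ⟨-t, ?_⟩
  funext i
  simp

section small

variable {L : ℕ → ℝ} (hL : Tendsto L atTop atTop)
include hL

lemma negl_pow {b : ℕ} (hb : 2 ≤ b) (K : ℕ) {h : ℕ → ℕ}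
    (hh : ∀ ε : ℝ, 0 < ε → ∀ᶠ n in (UU : Filter ℕ), (h n : ℝ) ≤ ε * L n) (a : ℕ → ℤ)
    (ha : ∀ n, |a n| ≤ K * (b : ℤ) ^ h n) : Negl L a := by
  intro ε hε
  have hlb : 0 < Real.log b := Real.log_pos (by exact_mod_cast hb)
  filter_upwards [hh (ε / 2 / Real.log b) (by positivity),
    ev_of_atTop (hL.eventually_ge_atTop (K / (ε / 2)))] with n h1 h2
  have h3 : (K : ℝ) ≤ Real.exp (ε / 2 * L n) := by
    rw [div_le_iff₀ (by positivity)] at h2
    have := Real.add_one_le_exp (ε / 2 * L n)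
    linarith
  have h4 : (b : ℝ) ^ h n ≤ Real.exp (ε / 2 * L n) := by
    rw [← zpow_natCast, zpow_exp hb]
    apply Real.exp_le_exp.2
    calc (((h n : ℕ) : ℤ) : ℝ) * Real.log b ≤ ε / 2 / Real.log b * L n * Real.log b := by
          gcongr
          exact_mod_cast h1
      _ = ε / 2 * L n := by field_simp
  have h5 : |(a n : ℝ)| ≤ K * (b : ℝ) ^ h n := by exact_mod_cast ha n
  calc |(a n : ℝ)| ≤ K * (b : ℝ) ^ h n := h5
    _ ≤ Real.exp (ε / 2 * L n) * Real.exp (ε / 2 * L n) := by gcongr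
    _ = Real.exp (ε * L n) := by rw [← Real.exp_add]; ring_nf

lemma pow_mem {b : ℕ} (hb : 2 ≤ b) {h : ℕ → ℕ}
    (hh : ∀ ε : ℝ, 0 < ε → ∀ᶠ n in (UU : Filter ℕ), (h n : ℝ) ≤ ε * L n) :
    gm (fun n => ((b : ℚ) ^ h n)⁻¹) ∈ KK L hL := by
  refine ⟨fun _ => 1, fun n => (b : ℤ) ^ h n, Negl.one hL, negl_pow hL hb 1 hh _ fun n => ?_,
    ?_, ?_⟩
  · rw [abs_of_nonneg (by positivity)]
    simp
  · refine Eventually.of_forall fun n => ?_
    have : (b : ℤ) ≠ 0 := by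
      have : b ≠ 0 := by omega
      exact_mod_cast this
    positivity
  · congr 1
    funext n
    push_cast
    rw [one_div]

omit hL in
lemma tau_den {α : Type} [Finite α] (τ : α → ℚ) : ∃ (D : ℕ) (a : α → ℤ) (K : ℕ), 0 < D ∧
    (∀ c, τ c = (a c : ℚ) / D) ∧ ∀ c, |a c| ≤ K := by
  classical
  have := Fintype.ofFinite α
  have h1 : ∀ c, ∃ a : ℤ, τ c = (a : ℚ) / (∏ d, (τ d).den : ℕ) := by
    intro c
    obtain ⟨k, hk⟩ := Finset.dvd_prod_of_mem (fun d => (τ d).den) (Finset.mem_univ c)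
    refine ⟨(τ c).num * k, ?_⟩
    have h3 : (∏ d, (τ d).den : ℕ) ≠ 0 :=
      Finset.prod_ne_zero_iff.2 fun d _ => (τ d).den_ne_zero
    have h0 : ((∏ d, (τ d).den : ℕ) : ℚ) ≠ 0 := by exact_mod_cast h3
    rw [eq_div_iff h0, hk]
    have h2 := Rat.mul_den_eq_num (τ c)
    push_cast
    rw [← h2]
    ring
  choose a ha using h1
  refine ⟨∏ d, (τ d).den, a, ∑ c, (a c).natAbs,
    Nat.pos_of_ne_zero (Finset.prod_ne_zero_iff.2 fun d _ => (τ d).den_ne_zero), ha, fun c => ?_⟩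
  have h3 : (a c).natAbs ≤ ∑ c, (a c).natAbs :=
    Finset.single_le_sum (f := fun c => (a c).natAbs) (fun _ _ => Nat.zero_le _)
      (Finset.mem_univ c)
  rw [Int.abs_eq_natAbs]
  exact_mod_cast h3

lemma small_mem {b : ℕ} (hb : 2 ≤ b) {α : Type} [Finite α] (τ : α → ℚ) (u : ℕ → ℕ → α)
    {h : ℕ → ℕ} (hh : ∀ ε : ℝ, 0 < ε → ∀ᶠ n in (UU : Filter ℕ), (h n : ℝ) ≤ ε * L n) :
    gm (fun n => ∑ j ∈ Finset.range (h n), τ (u n j) / (b : ℚ) ^ (j + 1)) ∈ KK L hL := by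
  obtain ⟨D, a, K, hD, ha, hK⟩ := tau_den τ
  have hb0 : (b : ℚ) ≠ 0 := by
    have : b ≠ 0 := by omega
    exact_mod_cast this
  have hD0 : (D : ℚ) ≠ 0 := by exact_mod_cast hD.ne'
  have hh2 : ∀ ε : ℝ, 0 < ε → ∀ᶠ n in (UU : Filter ℕ),
      (((fun n => 2 * h n) n : ℕ) : ℝ) ≤ ε * L n := by
    intro ε hε
    filter_upwards [hh (ε / 2) (by positivity)] with n h1
    push_cast
    linarith
  have hb1 : (1 : ℤ) ≤ b := by exact_mod_cast (by omega : 1 ≤ b)
  refine ⟨fun n => ∑ j ∈ Finset.range (h n), a (u n j) * (b : ℤ) ^ (h n - 1 - j),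
    fun n => D * (b : ℤ) ^ h n, negl_pow hL hb K hh2 _ fun n => ?_,
    negl_pow hL hb D hh _ fun n => ?_, ?_, ?_⟩
  · calc |∑ j ∈ Finset.range (h n), a (u n j) * (b : ℤ) ^ (h n - 1 - j)|
        ≤ ∑ j ∈ Finset.range (h n), K * (b : ℤ) ^ h n := by
          refine (Finset.abs_sum_le_sum_abs _ _).trans (Finset.sum_le_sum fun j _ => ?_)
          rw [abs_mul, abs_of_nonneg (by positivity : (0 : ℤ) ≤ (b : ℤ) ^ (h n - 1 - j))]
          have h1 := hK (u n j)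
          have h2 : (b : ℤ) ^ (h n - 1 - j) ≤ (b : ℤ) ^ h n := by
            apply pow_le_pow_right₀ hb1
            omega
          gcongr
      _ = h n * (K * (b : ℤ) ^ h n) := by
          rw [Finset.sum_const, Finset.card_range, nsmul_eq_mul]
      _ ≤ (b : ℤ) ^ h n * (K * (b : ℤ) ^ h n) := by
          have h3 : h n ≤ b ^ h n := (Nat.lt_pow_self (by omega)).le
          have h4 : (h n : ℤ) ≤ (b : ℤ) ^ h n := by exact_mod_cast h3
          gcongr
      _ = K * (b : ℤ) ^ (2 * h n) := by rw [two_mul, pow_add]; ring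
  · rw [abs_of_nonneg (by positivity)]
  · refine Eventually.of_forall fun n => ?_
    have : (b : ℤ) ≠ 0 := by omega
    positivity
  · congr 1
    funext n
    push_cast
    rw [Finset.sum_div]
    refine Finset.sum_congr rfl fun j hj => ?_
    have hj' := Finset.mem_range.1 hj
    rw [ha, div_div, div_eq_div_iff (by positivity) (by positivity)]
    have h5 : (b : ℚ) ^ h n = (b : ℚ) ^ (h n - 1 - j) * (b : ℚ) ^ (j + 1) := by
      rw [← pow_add]
      congr 1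
      omega
    rw [h5]
    ring

end small

/-! ## prefixes -/

lemma pre_add {α : Type} (b : ℕ) (hb : 2 ≤ b) (τ : α → ℚ) (w : ℕ → α) (s T : ℕ) :
    pre b τ w (s + T) = pre b τ w s + ((b : ℚ) ^ s)⁻¹ *
      ∑ i ∈ Finset.range T, τ (w (s + i)) / (b : ℚ) ^ (i + 1) := by
  have hb0 : (b : ℚ) ≠ 0 := by
    have : b ≠ 0 := by omega
    exact_mod_cast this
  unfold pre
  rw [Finset.sum_range_add, Finset.mul_sum]
  congr 1
  refine Finset.sum_congr rfl fun i _ => ?_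
  rw [show s + i + 1 = s + (i + 1) by ring, pow_add]
  field_simp

lemma pre_copy {α : Type} (b : ℕ) (hb : 2 ≤ b) (τ : α → ℚ) (w : ℕ → α) {s t δ : ℕ} (hst : s ≤ t)
    (hδ : δ ≤ s) (h : ∀ j, s ≤ j → j < t → w j = w (j - δ)) :
    pre b τ w t = pre b τ w s + ((b : ℚ) ^ δ)⁻¹ *
      (pre b τ w (t - δ) - pre b τ w (s - δ)) := by
  have hb0 : (b : ℚ) ≠ 0 := by
    have : b ≠ 0 := by omega
    exact_mod_cast this
  obtain ⟨T, rfl⟩ := Nat.exists_eq_add_of_le hst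
  obtain ⟨σ, rfl⟩ := Nat.exists_eq_add_of_le hδ
  rw [show δ + σ + T - δ = σ + T by omega, show δ + σ - δ = σ by omega, pre_add b hb τ w (δ + σ) T,
    pre_add b hb τ w σ T, add_sub_cancel_left, ← mul_assoc, pow_add, mul_inv]
  congr 2
  refine Finset.sum_congr rfl fun i hi => ?_
  have hi' := Finset.mem_range.1 hi
  rw [h (δ + σ + i) (by omega) (by omega), show δ + σ + i - δ = σ + i by omega]

end Pool.Agent.L0h9.FR
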