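import Mathlib
import Pool.Agent.L0h9.FR.Prel

set_option autoImplicit false
set_option linter.all false

/-!
# Project FR, part 2: module LC (chains of phrases)
-/

namespace Pool.Agent.L0h9.FR

open Filter Topology Pool.Agent.TH932.Abs Pool.Agent.TH932.Germs Pool.Agent.TH932.Chi
open Pool.Agent.TH796.AL Pool.Agent.TH932.Words Pool.Agent.TH796.AL.TwoB
open Pool.Agent.L0h79.FR

section span

variable {m : ℕ} (B : Base m) {L : ℕ → ℝ} (hL : Tendsto L atTop atTop)
  (V : Submodule ℝ (Fin m → ℝ)) (Y : (ℕ → ℕ) → GG)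

/-- combinations of `1` and of the germs `Y ρ`, `ρ ∈ F` -/
noncomputable def Sp (F : Set (ℕ → ℕ)) : Submodule (EE B hL V) GG :=
  Submodule.span (EE B hL V) (insert 1 (Y '' F))

variable {B} {hL} {V} {Y}

lemma Sp_mono {F F' : Set (ℕ → ℕ)} (h : F ⊆ F') : Sp B hL V Y F ≤ Sp B hL V Y F' :=
  Submodule.span_mono (Set.insert_subset_insert (Set.image_mono h))

lemma Sp_mul {F : Set (ℕ → ℕ)} {c z : GG} (hc : c ∈ EE B hL V) (hz : z ∈ Sp B hL V Y F) :
    c * z ∈ Sp B hL V Y F :=
  (Sp B hL V Y F).smul_mem (⟨c, hc⟩ : EE B hL V) hz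

lemma Sp_E {F : Set (ℕ → ℕ)} {c : GG} (hc : c ∈ EE B hL V) : c ∈ Sp B hL V Y F := by
  have h := Sp_mul (F := F) (Y := Y) hc (Submodule.subset_span (Set.mem_insert 1 _))
  rwa [mul_one] at h

lemma Sp_mem {F : Set (ℕ → ℕ)} {ρ : ℕ → ℕ} (h : ρ ∈ F) : Y ρ ∈ Sp B hL V Y F :=
  Submodule.subset_span (Set.mem_insert_of_mem _ (Set.mem_image_of_mem Y h))

/-- elements of the span of finitely many germs -/
lemma Sp_out {F : Set (ℕ → ℕ)} {k : ℕ} (ρ : Fin k → ℕ → ℕ) (hF : F ⊆ Set.range ρ) {z : GG}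
    (hz : z ∈ Sp B hL V Y F) : ∃ (P : Fin k → Rg m hL) (f : Rg m hL),
    (∀ g, f.coeff g ≠ 0 → g ∈ V) ∧ (∀ i g, (P i).coeff g ≠ 0 → g ∈ V) ∧
    z = ev B hL f + ∑ i, ev B hL (P i) * Y (ρ i) := by
  have h1 : Sp B hL V Y F ≤ Submodule.span (EE B hL V)
      (Set.range (fun o : Option (Fin k) => o.elim 1 (fun i => Y (ρ i)))) := by
    refine Submodule.span_mono ?_
    rintro x (rfl | ⟨σ, hσ, rfl⟩)
    · exact ⟨none, rfl⟩
    · obtain ⟨i, rfl⟩ := hF hσ
      exact ⟨some i, rfl⟩
  obtain ⟨c, hc⟩ := (Submodule.mem_span_range_iff_exists_fun _).1 (h1 hz)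
  have h2 : ∀ o, ∃ f : Rg m hL, (∀ g, f.coeff g ≠ 0 → g ∈ V) ∧ ((c o : EE B hL V) : GG)
      = ev B hL f := fun o => (c o).2
  choose f hf hf' using h2
  refine ⟨fun i => f (some i), f none, hf none, fun i => hf (some i), ?_⟩
  rw [← hc, Fintype.sum_option]
  congr 1
  · change ((c none : EE B hL V) : GG) * 1 = _
    rw [mul_one, hf']
  · refine Finset.sum_congr rfl fun i _ => ?_
    change ((c (some i) : EE B hL V) : GG) * Y (ρ i) = _
    rw [hf']

end span

lemma ult_or {p q : ℕ → Prop} (h : ∀ n, p n ∨ q n) :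
    (∀ᶠ n in (UU : Filter ℕ), p n) ∨ ∀ᶠ n in (UU : Filter ℕ), q n :=
  Ultrafilter.eventually_or.1 (Eventually.of_forall h)

section chain

variable (hS : S_SHIFT) (hLS : S_LS) {b : ℕ} (hb : 2 ≤ b) {α : Type} [Finite α] (τ : α → ℚ)
  (w : ℕ → α) {m : ℕ} (B : Base m) {e : Fin m → ℕ} (hbe : b = ∏ i, B.P i ^ e i) {N : ℕ → ℕ}
  (hL : Tendsto (fun n => (N n : ℝ)) atTop atTop)
include hS hLS hb hbe hL

theorem chain (r M : ℕ) (t : ℕ → ℕ → ℕ)
    (h : ∀ n, t n 0 = N n ∧ t n r ≤ M * N n ∧ ∀ i < r, Phrase w (t n i) (t n (i + 1))) :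
    ∀ i ≤ r, ∃ l : List (ℕ → ℕ), l.length = 2 * i ∧ (∀ ρ ∈ l, ∀ n, ρ n ≤ N n) ∧
      ∀ s : ℕ → ℕ, (∀ᶠ n in (UU : Filter ℕ), s n ≤ t n i) →
        ∃ ρ : ℕ → ℕ, (∀ n, ρ n ≤ N n) ∧ gm (fun n => pre b τ w (s n)) ∈
          Sp B hL (Submodule.span ℝ {fun i => (e i : ℝ)}) (fun ρ => gm (fun n => pre b τ w (ρ n)))
            {x | x ∈ ρ :: l} := by
  set V := Submodule.span ℝ {fun i => (e i : ℝ)} with hV
  set Y : (ℕ → ℕ) → GG := fun ρ => gm (fun n => pre b τ w (ρ n)) with hY
  have hb0 : (b : ℚ) ≠ 0 := by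
    have : b ≠ 0 := by omega
    exact_mod_cast this
  have htM : ∀ n, ∀ k i, i + k = r → t n i ≤ M * N n := by
    intro n k
    induction k with
    | zero => intro i hi; rw [add_zero] at hi; rw [hi]; exact (h n).2.1
    | succ k ih =>
      intro i hi
      have h1 := ih (i + 1) (by omega)
      have h2 := ((h n).2.2 i (by omega)).1
      omega
  intro i
  induction i with
  | zero =>
    intro _
    refine ⟨[], rfl, fun ρ hρ => absurd hρ List.not_mem_nil, fun s hs => ?_⟩
    refine ⟨fun n => min (s n) (N n), fun n => min_le_right _ _, ?_⟩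
    have h1 : gm (fun n => pre b τ w (s n)) = Y (fun n => min (s n) (N n)) := by
      rw [hY, gm_eq]
      filter_upwards [hs] with n hn
      rw [(h n).1] at hn
      rw [min_eq_left hn]
    rw [h1]
    exact Sp_mem (by simp)
  | succ i ih =>
    intro hir
    obtain ⟨l, hl1, hl2, hP⟩ := ih (by omega)
    obtain ⟨ρa, hρa, hYa⟩ := hP (fun n => t n i) (Eventually.of_forall fun n => le_rfl)
    have hti : ∀ n, t n i ≤ M * N n := fun n => htM n (r - i) i (by omega)
    have hti1 : ∀ n, t n (i + 1) ≤ M * N n := fun n => htM n (r - (i + 1)) (i + 1) (by omega)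
    rcases ult_or (fun n => ((h n).2.2 i (by omega)).2) with hc | hc
    · -- one letter
      refine ⟨ρa :: ρa :: l, by simp [hl1]; ring, ?_, fun s hs => ?_⟩
      · intro ρ hρ
        rw [List.mem_cons, List.mem_cons] at hρ
        rcases hρ with rfl | rfl | hρ
        · exact hρa
        · exact hρa
        · exact hl2 ρ hρ
      rcases ult_or (fun n => le_or_gt (s n) (t n i)) with h1 | h1
      · obtain ⟨ρ, hρ, hy⟩ := hP s h1
        refine ⟨ρ, hρ, Sp_mono ?_ hy⟩
        intro x hx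
        simp only [List.mem_cons, Set.mem_setOf_eq] at hx ⊢
        tauto
      · refine ⟨ρa, hρa, ?_⟩
        have h2 : gm (fun n => pre b τ w (s n)) = gm (fun n => pre b τ w (t n i))
            + gm (fun n => ((b : ℚ) ^ t n i)⁻¹) * gm (fun n => ∑ j ∈ Finset.range 1,
              τ (w (t n i + j)) / (b : ℚ) ^ (j + 1)) := by
          rw [gm_mul, gm_add, gm_eq]
          filter_upwards [h1, hs, hc] with n g1 g2 g3
          have g4 : s n = t n i + 1 := by omega
          rw [g4, pre_add b hb]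
        rw [h2]
        have h3 : gm (fun n => ∑ j ∈ Finset.range 1, τ (w (t n i + j)) / (b : ℚ) ^ (j + 1))
            ∈ KK (fun n => (N n : ℝ)) hL := by
          refine small_mem hL hb τ (fun n j => w (t n i + j)) (h := fun _ => 1) fun ε hε => ?_
          filter_upwards [ev_of_atTop (hL.eventually_ge_atTop (1 / ε))] with n hn
          rw [div_le_iff₀ hε] at hn
          push_cast
          linarith
        refine Submodule.add_mem _ (Sp_mono ?_ hYa) (Sp_E ((EE B hL V).mul_mem
          (EE_shift hS hb B hbe hL (fun n => t n i) M (Eventually.of_forall hti)) (EE_KK h3)))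
        intro x hx
        simp only [List.mem_cons, Set.mem_setOf_eq] at hx ⊢
        tauto
    · -- a copy
      have hc' : ∀ n, ∃ δ : ℕ, (∃ δ, 1 ≤ δ ∧ δ ≤ t n i ∧
          ∀ j, t n i ≤ j → j < t n (i + 1) → w j = w (j - δ)) →
          (1 ≤ δ ∧ δ ≤ t n i ∧ ∀ j, t n i ≤ j → j < t n (i + 1) → w j = w (j - δ)) := by
        intro n
        by_cases h1 : ∃ δ, 1 ≤ δ ∧ δ ≤ t n i ∧
          ∀ j, t n i ≤ j → j < t n (i + 1) → w j = w (j - δ)
        · obtain ⟨δ, hδ⟩ := h1
          exact ⟨δ, fun _ => hδ⟩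
        · exact ⟨0, fun h2 => absurd h2 h1⟩
      choose δ hδ' using hc'
      have hδ : ∀ᶠ n in (UU : Filter ℕ), 1 ≤ δ n ∧ δ n ≤ t n i ∧
          ∀ j, t n i ≤ j → j < t n (i + 1) → w j = w (j - δ n) := by
        filter_upwards [hc] with n hn using hδ' n hn
      obtain ⟨ρb, hρb, hYb⟩ := hP (fun n => t n i - δ n)
        (Eventually.of_forall fun n => Nat.sub_le _ _)
      refine ⟨ρa :: ρb :: l, by simp [hl1]; ring, ?_, ?_⟩
      · intro ρ hρ
        rw [List.mem_cons, List.mem_cons] at hρ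
        rcases hρ with rfl | rfl | hρ
        · exact hρa
        · exact hρb
        · exact hl2 ρ hρ
      have hsmall : ∀ s : ℕ → ℕ, (∀ᶠ n in (UU : Filter ℕ), s n ≤ t n i) →
          ∃ ρ : ℕ → ℕ, (∀ n, ρ n ≤ N n) ∧ gm (fun n => pre b τ w (s n)) ∈
            Sp B hL V Y {x | x ∈ ρ :: ρa :: ρb :: l} := by
        intro s hs
        obtain ⟨ρ, hρ, hy⟩ := hP s hs
        refine ⟨ρ, hρ, Sp_mono ?_ hy⟩
        intro x hx
        simp only [List.mem_cons, Set.mem_setOf_eq] at hx ⊢
        tauto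
      by_cases hsm : ∀ ε : ℝ, 0 < ε → ∀ᶠ n in (UU : Filter ℕ), (δ n : ℝ) ≤ ε * N n
      · intro s hs
        rcases ult_or (fun n => le_or_gt (s n) (t n i)) with h1 | h1
        · exact hsmall s h1
        · refine ⟨ρa, hρa, ?_⟩
          obtain ⟨f, hf, h2⟩ := hLS b hb α inferInstance τ w m B e hbe N hL (fun n => t n i) s δ M
            (by
              filter_upwards [h1, hs, hδ] with n g1 g2 g3
              refine ⟨g1.le, g2.trans (hti1 n), g3.1, g3.2.1, fun j g4 g5 => g3.2.2 j g4 ?_⟩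
              omega) hsm
          rw [h2]
          refine Submodule.add_mem _ (Sp_mono ?_ hYa) (Sp_E ⟨f, hf, rfl⟩)
          intro x hx
          simp only [List.mem_cons, Set.mem_setOf_eq] at hx ⊢
          tauto
      · push Not at hsm
        obtain ⟨ε, hε, hsm⟩ := hsm
        have hbig : ∀ᶠ n in (UU : Filter ℕ), ε * N n < δ n := hsm
        have key : ∀ k : ℕ, ∀ s : ℕ → ℕ, (∀ᶠ n in (UU : Filter ℕ), s n ≤ t n (i + 1)) →
            (∀ᶠ n in (UU : Filter ℕ), s n ≤ t n i + k * δ n) →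
            ∃ ρ : ℕ → ℕ, (∀ n, ρ n ≤ N n) ∧ gm (fun n => pre b τ w (s n)) ∈
              Sp B hL V Y {x | x ∈ ρ :: ρa :: ρb :: l} := by
          intro k
          induction k with
          | zero =>
            intro s _ hs
            exact hsmall s (by simpa using hs)
          | succ k ihk =>
            intro s hs1 hs2
            rcases ult_or (fun n => le_or_gt (s n) (t n i)) with h1 | h1
            · exact hsmall s h1
            obtain ⟨ρ, hρ, hy⟩ := ihk (fun n => s n - δ n)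
              (by filter_upwards [hs1] with n g1; omega)
              (by
                filter_upwards [hs2] with n g1
                have : (k + 1) * δ n = k * δ n + δ n := by ring
                omega)
            refine ⟨ρ, hρ, ?_⟩
            have h2 : gm (fun n => pre b τ w (s n)) = gm (fun n => pre b τ w (t n i))
                + gm (fun n => ((b : ℚ) ^ δ n)⁻¹) * (gm (fun n => pre b τ w (s n - δ n))
                  - gm (fun n => pre b τ w (t n i - δ n))) := by
              rw [gm_sub, gm_mul, gm_add, gm_eq]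
              filter_upwards [h1, hs1, hδ] with n g1 g2 g3
              exact pre_copy b hb τ w g1.le g3.2.1 fun j g4 g5 => g3.2.2 j g4 (by omega)
            rw [h2]
            have h3 : gm (fun n => ((b : ℚ) ^ δ n)⁻¹) ∈ EE B hL V :=
              EE_shift hS hb B hbe hL δ M (by
                filter_upwards [hδ] with n g1
                exact g1.2.1.trans (hti n))
            refine Submodule.add_mem _ (Sp_mono ?_ hYa) (Sp_mul h3
              (Submodule.sub_mem _ hy (Sp_mono ?_ hYb)))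
            · intro x hx
              simp only [List.mem_cons, Set.mem_setOf_eq] at hx ⊢
              tauto
            · intro x hx
              simp only [List.mem_cons, Set.mem_setOf_eq] at hx ⊢
              tauto
        intro s hs
        refine key ⌈(M : ℝ) / ε⌉₊ s hs ?_
        filter_upwards [hs, hbig] with n g1 g2
        have g3 := hti1 n
        have g4 : ((M * N n : ℕ) : ℝ) ≤ ((⌈(M : ℝ) / ε⌉₊ * δ n : ℕ) : ℝ) := by
          push_cast
          have g5 : (M : ℝ) / ε ≤ ⌈(M : ℝ) / ε⌉₊ := Nat.le_ceil _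
          calc (M : ℝ) * N n = M / ε * (ε * N n) := by field_simp
            _ ≤ ⌈(M : ℝ) / ε⌉₊ * δ n := by gcongr
        have g6 : M * N n ≤ ⌈(M : ℝ) / ε⌉₊ * δ n := by exact_mod_cast g4
        omega

end chain

theorem lc (hS : S_SHIFT) (hLS : S_LS) : S_LC := by
  intro b hb α hα τ w m B e hbe N hL r M t h
  obtain ⟨l, hl1, hl2, hP⟩ := chain hS hLS hb τ w B hbe hL r M t h r le_rfl
  obtain ⟨ρ, hρ, hy⟩ := hP (fun n => t n r) (Eventually.of_forall fun n => le_rfl)
  have hlen : (ρ :: l).length = 2 * r + 1 := by rw [List.length_cons, hl1]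
  obtain ⟨P, f, hf, hP', h1⟩ := Sp_out (fun i : Fin (2 * r + 1) => (ρ :: l).get (Fin.cast hlen.symm i))
    (by
      intro x hx
      obtain ⟨i, hi⟩ := List.get_of_mem hx
      exact ⟨Fin.cast hlen i, by simpa using hi⟩) hy
  refine ⟨fun n i => (ρ :: l).get (Fin.cast hlen.symm i) n, P, f, fun n i => ?_, hf, hP', h1⟩
  have h2 : (ρ :: l).get (Fin.cast hlen.symm i) ∈ ρ :: l := List.get_mem _ _
  rw [List.mem_cons] at h2
  change (ρ :: l).get (Fin.cast hlen.symm i) n ≤ N n
  rcases h2 with h2 | h2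
  · rw [h2]; exact hρ n
  · exact hl2 _ h2 n

end Pool.Agent.L0h9.FR
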