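import Mathlib
import Pool.Agent.L0h9.FR.Prel

set_option autoImplicit false
set_option linter.all false

/-!
# Project FR, part 2: module LS (small periods)
-/

namespace Pool.Agent.L0h9.FR

open Filter Topology Pool.Agent.TH932.Abs Pool.Agent.TH932.Germs Pool.Agent.TH932.Chi
open Pool.Agent.TH796.AL Pool.Agent.TH932.Words Pool.Agent.TH796.AL.TwoB
open Pool.Agent.L0h79.FR

lemma per_word {α : Type} {w : ℕ → α} {s t δ : ℕ} (h1 : 1 ≤ δ) (h2 : δ ≤ s)
    (h : ∀ j, s ≤ j → j < t → w j = w (j - δ)) :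
    ∀ i, s + i < t → w (s + i) = w (s - δ + i % δ) := by
  intro i
  induction i using Nat.strong_induction_on with
  | _ i ih =>
    intro hi
    rw [h (s + i) (by omega) hi]
    rcases lt_or_ge i δ with h3 | h3
    · rw [Nat.mod_eq_of_lt h3]
      congr 1
      omega
    · have h4 := ih (i - δ) (by omega) (by omega)
      rw [Nat.mod_eq_sub_mod h3, ← h4]
      congr 1
      omega

lemma geo_per (b : ℕ) (hb : 2 ≤ b) (v : ℕ → ℚ) (δ : ℕ) (hv : ∀ i, v (δ + i) = v i) (q ρ : ℕ) :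
    (1 - ((b : ℚ) ^ δ)⁻¹) * ∑ i ∈ Finset.range (q * δ + ρ), v i / (b : ℚ) ^ (i + 1)
      = (∑ i ∈ Finset.range δ, v i / (b : ℚ) ^ (i + 1)) * (1 - ((b : ℚ) ^ (q * δ))⁻¹)
        + (1 - ((b : ℚ) ^ δ)⁻¹) * ((b : ℚ) ^ (q * δ))⁻¹ *
          ∑ i ∈ Finset.range ρ, v i / (b : ℚ) ^ (i + 1) := by
  have hb0 : (b : ℚ) ≠ 0 := by
    have : b ≠ 0 := by omega
    exact_mod_cast this
  induction q with
  | zero => simp
  | succ q ih =>
    rw [show (q + 1) * δ + ρ = δ + (q * δ + ρ) by ring, Finset.sum_range_add]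
    have h1 : ∑ x ∈ Finset.range (q * δ + ρ), v (δ + x) / (b : ℚ) ^ (δ + x + 1)
        = ((b : ℚ) ^ δ)⁻¹ * ∑ i ∈ Finset.range (q * δ + ρ), v i / (b : ℚ) ^ (i + 1) := by
      rw [Finset.mul_sum]
      refine Finset.sum_congr rfl fun i _ => ?_
      rw [hv, show δ + i + 1 = δ + (i + 1) by ring, pow_add]
      field_simp
    rw [h1, mul_add, mul_left_comm, ih, show (q + 1) * δ = δ + q * δ by ring, pow_add, mul_inv]
    ring

theorem ls (hS : S_SHIFT) : S_LS := by
  intro b hb α hα τ w m B e hbe N hL s t δ M h hδ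
  have hb0 : (b : ℚ) ≠ 0 := by
    have : b ≠ 0 := by omega
    exact_mod_cast this
  set V := Submodule.span ℝ {fun i => (e i : ℝ)} with hV
  set ρ : ℕ → ℕ := fun n => (t n - s n) % δ n with hρ
  set q : ℕ → ℕ := fun n => (t n - s n) / δ n with hq
  have hρs : ∀ ε : ℝ, 0 < ε → ∀ᶠ n in (UU : Filter ℕ), (ρ n : ℝ) ≤ ε * N n := by
    intro ε hε
    filter_upwards [hδ ε hε, h] with n h1 h2
    have h3 : ρ n ≤ δ n := (Nat.mod_lt _ (by omega)).le
    have h4 : (ρ n : ℝ) ≤ δ n := by exact_mod_cast h3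
    linarith
  -- the germs
  set G : ℕ → ℚ := fun n => ∑ j ∈ Finset.range (δ n),
    τ (w (s n - δ n + j % δ n)) / (b : ℚ) ^ (j + 1) with hG
  set G' : ℕ → ℚ := fun n => ∑ j ∈ Finset.range (ρ n),
    τ (w (s n - δ n + j % δ n)) / (b : ℚ) ^ (j + 1) with hG'
  have hGK : gm G ∈ KK (fun n => (N n : ℝ)) hL :=
    small_mem hL hb τ (fun n j => w (s n - δ n + j % δ n)) hδ
  have hG'K : gm G' ∈ KK (fun n => (N n : ℝ)) hL :=
    small_mem hL hb τ (fun n j => w (s n - δ n + j % δ n)) hρs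
  have hxK : gm (fun n => 1 - ((b : ℚ) ^ δ n)⁻¹) ∈ KK (fun n => (N n : ℝ)) hL := by
    rw [← gm_sub, gm_one]
    exact (KK _ hL).sub_mem (KK _ hL).one_mem (pow_mem hL hb hδ)
  have hcK : gm (fun n => G n / (1 - ((b : ℚ) ^ δ n)⁻¹)) ∈ KK (fun n => (N n : ℝ)) hL := by
    rw [← gm_div]
    exact (KK _ hL).div_mem hGK hxK
  have h1 : gm (fun n => ((b : ℚ) ^ s n)⁻¹) ∈ EE B hL V :=
    EE_shift hS hb B hbe hL s M (by filter_upwards [h] with n hn; omega)
  have h2 : gm (fun n => ((b : ℚ) ^ (s n + q n * δ n))⁻¹) ∈ EE B hL V := by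
    refine EE_shift hS hb B hbe hL (fun n => s n + q n * δ n) M ?_
    filter_upwards [h] with n hn
    have h3 : q n * δ n ≤ t n - s n := Nat.div_mul_le_self _ _
    omega
  have h3 : gm (fun n => pre b τ w (t n)) - gm (fun n => pre b τ w (s n)) ∈ EE B hL V := by
    have h4 : gm (fun n => pre b τ w (t n)) - gm (fun n => pre b τ w (s n))
        = gm (fun n => ((b : ℚ) ^ s n)⁻¹) * gm (fun n => G n / (1 - ((b : ℚ) ^ δ n)⁻¹))
          + gm (fun n => ((b : ℚ) ^ (s n + q n * δ n))⁻¹)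
            * (gm G' - gm (fun n => G n / (1 - ((b : ℚ) ^ δ n)⁻¹))) := by
      rw [gm_sub, gm_sub, gm_mul, gm_mul, gm_add, gm_eq]
      filter_upwards [h] with n hn
      obtain ⟨g1, g2, g3, g4, g5⟩ := hn
      have e1 : t n = s n + (q n * δ n + ρ n) := by
        have := Nat.div_add_mod (t n - s n) (δ n)
        have h6 : q n * δ n + ρ n = t n - s n := by
          rw [hq, hρ]
          simp only
          rw [mul_comm]
          exact this
        omega
      have e2 := geo_per b hb (fun i => τ (w (s n - δ n + i % δ n))) (δ n)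
        (fun i => by simp only [Nat.add_mod_left]) (q n) (ρ n)
      have e3 : ∑ i ∈ Finset.range (q n * δ n + ρ n), τ (w (s n + i)) / (b : ℚ) ^ (i + 1)
          = ∑ i ∈ Finset.range (q n * δ n + ρ n),
            τ (w (s n - δ n + i % δ n)) / (b : ℚ) ^ (i + 1) := by
        refine Finset.sum_congr rfl fun i hi => ?_
        have hi' := Finset.mem_range.1 hi
        rw [per_word g3 g4 g5 i (by omega)]
      have e4 : (1 - ((b : ℚ) ^ δ n)⁻¹) ≠ 0 := by
        have h7 : (1 : ℚ) < (b : ℚ) ^ δ n := one_lt_pow₀ (by exact_mod_cast (by omega : 1 < b))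
          (by omega)
        have h8 : ((b : ℚ) ^ δ n)⁻¹ < 1 := inv_lt_one_of_one_lt₀ h7
        linarith
      have e5 : pre b τ w (t n) = pre b τ w (s n) + ((b : ℚ) ^ s n)⁻¹ *
          ∑ i ∈ Finset.range (q n * δ n + ρ n),
            τ (w (s n - δ n + i % δ n)) / (b : ℚ) ^ (i + 1) := by
        rw [← e3, ← pre_add b hb τ w (s n) (q n * δ n + ρ n), ← e1]
      change _ - _ = ((b : ℚ) ^ s n)⁻¹ * (G n / (1 - ((b : ℚ) ^ δ n)⁻¹))
        + ((b : ℚ) ^ (s n + q n * δ n))⁻¹ * (G' n - G n / (1 - ((b : ℚ) ^ δ n)⁻¹))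
      rw [e5, add_sub_cancel_left, pow_add, mul_inv]
      have e6 : ∑ i ∈ Finset.range (q n * δ n + ρ n),
            τ (w (s n - δ n + i % δ n)) / (b : ℚ) ^ (i + 1)
          = G n / (1 - ((b : ℚ) ^ δ n)⁻¹) + ((b : ℚ) ^ (q n * δ n))⁻¹ *
            (G' n - G n / (1 - ((b : ℚ) ^ δ n)⁻¹)) := by
        apply mul_left_cancel₀ e4
        rw [e2]
        have e7 : ∀ (g g' x X : ℚ), 1 - x ≠ 0 → g * (1 - X) + (1 - x) * X * g'
            = (1 - x) * (g / (1 - x) + X * (g' - g / (1 - x))) := by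
          intro g g' x X hx
          field_simp
          ring
        exact e7 _ _ _ _ e4
      rw [e6]
      ring
    rw [h4]
    exact (EE B hL V).add_mem ((EE B hL V).mul_mem h1 (EE_KK hcK))
      ((EE B hL V).mul_mem h2 ((EE B hL V).sub_mem (EE_KK hG'K) (EE_KK hcK)))
  obtain ⟨f, hf, h5⟩ := h3
  exact ⟨f, hf, by rw [← h5]; ring⟩

end Pool.Agent.L0h9.FR
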